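import Pool.Agent.MVO.StmtsC
import Pool.Agent.Helper78_MVO.TAA
import Pool.Agent.Helper23_MVO.TC2

set_option autoImplicit false

/-! Row TCA of the squad MVO: tightness of class c1 over `O1`. -/

namespace Pool.Agent.MVO.H98

open Pool.Agent.Helper14_MV Pool.Agent.Helper2_MV Pool.Agent.MVO
open Pool.Agent.MVO.H65.TacRow (rr_mono rr_trans mem_sp' max_of le_of_max)
open Pool.Agent.MVO.H34 (deg_psh sp_psh sp_nonempty card_sp_le sp_sg deg_sg)
open Pool.Agent.MVO.H78.TaaRow (bt_mono min_of psh_gt step tb3 bmap_tb3 w3 psh_tb3 deg_w3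
  sp_w3_sub w3_min w3_max deg_v3 red1 exists_min w3_le w2_le)
open Pool.Agent.MVO.H23 (deg_one)

namespace TcaRow

theorem psh_ge {K : ℕ} {f A : ℕ → ℕ} {I : ℕ} (hI : I ≤ K) : A I ≤ psh K f A (f I) := by
  unfold psh
  have h := Finset.single_le_sum (f := fun i => if f i = f I then A i else 0)
    (s := Finset.range (K + 1)) (fun _ _ => Nat.zero_le _) (Finset.mem_range.2 (by omega : I < K + 1))
  simp only [if_true] at h
  exact h

/-- push and add -/
theorem liftC (hfcc : FccStmt) {ρ : FIC} (hc : ClC1 ρ) {K k I : ℕ} {f A B c b : ℕ → ℕ}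
    (hf : BMap K k f) (hA : 2 ≤ deg K A) (hB : 2 ≤ deg K B) (hI : I ≤ K)
    (hA1 : 1 ≤ A I) (hB1 : 1 ≤ B I) (hz : ∀ j < I, A j = 0 ∧ B j = 0)
    (h : Bt ρ K A B I) (ha : ∀ j ≤ k, psh K f A j ≤ c j) (hb : ∀ j ≤ k, psh K f B j ≤ b j) :
    Bt ρ k c b (f I) := by
  obtain ⟨_, _, C3, C4, _, _⟩ := hfcc ρ hc
  have h1 := C4 K k f A B I hf hA hB hI hA1 hB1 hz h
  have h2 := C3 k (psh K f A) (psh K f B) (fun t => c t - psh K f A t)
    (fun t => b t - psh K f B t) (f I) (by rw [deg_psh hf.le]; exact hA)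
    (by rw [deg_psh hf.le]; exact hB) (hf.le I hI) (hA1.trans (psh_ge hI)) (hB1.trans (psh_ge hI)) h1
  have e : ∀ (A c : ℕ → ℕ), (∀ j ≤ k, psh K f A j ≤ c j) →
      (fun t => psh K f A t + (c t - psh K f A t)) = c := by
    intro A c hA
    funext t
    by_cases ht : t ≤ k
    · have := hA t ht
      omega
    · rw [psh_gt hf ht]
      omega
  rw [e A c ha, e B b hb] at h2
  exact h2

end TcaRow

open TcaRow

/-- **TCA** -/
theorem tca (oaa : OaaStmt) (oar : OarStmt) (fcc : FccStmt) (tc2 : Tc2Stmt) : TcaStmt := by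
  intro β ρ hle hc ho1 hcl k a a' hd hdd hL
  by_cases hLβ : L1 β k a a'
  · exact Or.inl hLβ
  right
  intro b e hb i hi
  revert e
  change Bt ρ k a b i
  have ho1ρ : O1 (FC.ofFIC ρ) := rr_mono hle ho1
  have hS : sp k a ≠ sp k a' := fun h => hLβ (oaa (FC.ofFIC β) k a a' (Or.inl ho1) hdd h)
  by_cases hN2 : (sp k a).card ≤ 2 ∧ (sp k a').card ≤ 2
  · exact tc2 ρ hc k a a' b i (Or.inl ho1ρ) hd hdd hb hi hL hS hN2.1 hN2.2
  obtain ⟨C0, C2, -⟩ := fcc ρ hc
  -- rule (R)
  have R : ∀ a'' : ℕ → ℕ, L1 ρ k a a'' → 2 ≤ deg k a'' → ¬ FR k a'' b i → ¬ ZR k a'' b i →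
      Bt ρ k a b i := fun a'' h1 h3 h4 h5 => C2 k a a'' b i h1 (C0 k a'' b i h3 hb hi h4 h5)
  obtain ⟨hIP, -, hAP, -⟩ := oar (FC.ofFIC ρ) k a a' (Or.inl ho1ρ) hd hdd hL hS
  have hcd : (sp k a).card ≤ deg k a := card_sp_le k a
  have hcd' : (sp k a').card ≤ deg k a' := card_sp_le k a'
  obtain ⟨N, hN⟩ : ∃ N, N = max (sp k a).card (sp k a').card := ⟨_, rfl⟩
  rw [← hN] at hIP
  have h5 := le_max_left (sp k a).card (sp k a').card
  have h6 := le_max_right (sp k a).card (sp k a').card
  have hN3 : 3 ≤ N := by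
    by_contra hlt
    apply hN2
    omega
  have hNd : N ≤ deg k a := by
    rw [hN]
    exact max_le hcd (by omega)
  obtain ⟨d, hdeq⟩ : ∃ d, d = deg k a := ⟨_, rfl⟩
  rw [← hdeq] at hd hIP hAP hNd hcd
  have hd3 : 3 ≤ d := by omega
  have hca : (sp k a).card ≤ N := by omega
  -- the ends of the support
  obtain ⟨p, hp, hpmin⟩ := exists_min (sp_nonempty (k := k) (a := a) (by omega))
  obtain ⟨r, hr, hrmax⟩ := H65.TacRow.exists_max (sp_nonempty (k := k) (a := a) (by omega))
  have hmina : (sp k a).min = (p : WithTop ℕ) := min_of hp hpmin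
  have hmaxa : (sp k a).max = (r : WithBot ℕ) := max_of hr hrmax
  have hpk : p ≤ k := (mem_sp'.1 hp).1
  have hrk : r ≤ k := (mem_sp'.1 hr).1
  have hpr : p ≤ r := hpmin r hr
  -- vectors with at most three blocks and the same ends
  have toc : ∀ q x y z, p ≤ q → q ≤ r → 1 ≤ x → 1 ≤ z → x + y + z = d →
      L1 ρ k a (w3 p q r x y z) := by
    intro q x y z hq1 hq2 hx hz hs
    refine hIP k a _ hdeq.symm ?_ hca ?_ ?_ ?_
    · rw [deg_w3 hpk (by omega) hrk]
      exact hs
    · refine (Finset.card_le_card sp_w3_sub).trans (Finset.card_le_three.trans hN3)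
    · rw [hmina, w3_min hpk hq1 hpr hx]
    · rw [hmaxa, w3_max hrk hq2 hpr hz]
  have degw : ∀ q x y z, q ≤ k → x + y + z = d → 2 ≤ deg k (w3 p q r x y z) := by
    intro q x y z hq hs
    rw [deg_w3 hpk hq hrk, hs]
    exact hd
  by_cases hZ : ZR k a b i
  · -- the last occurrences
    obtain ⟨hz1, hz2, ha1, hb1⟩ := hZ
    have hri : r = i := by
      have h7 := hrmax i (mem_sp'.2 ⟨hi, by omega⟩)
      by_contra hne
      exact (mem_sp'.1 hr).2 (hz1 r hrk (by omega)).1
    have hpi : p < i := by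
      by_contra hlt
      have h7 := deg_one (k := k) (b := a) hi (fun j hj hji => by
        by_contra h0
        have h8 := hpmin j (mem_sp'.2 ⟨hj, h0⟩)
        have h9 := hrmax j (mem_sp'.2 ⟨hj, h0⟩)
        omega)
      omega
    refine R _ (toc p 1 0 (d - 1) le_rfl hpr le_rfl (by omega) (by omega))
      (degw _ _ _ _ hpk (by omega)) ?_ ?_
    · rintro ⟨h7, -⟩
      have h8 := (h7 p hpi).1
      unfold w3 at h8
      rw [if_pos rfl] at h8
      omega
    · rintro ⟨-, -, h7, -⟩
      unfold w3 at h7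
      rw [hri, if_pos (rfl : i = i)] at h7
      omega
  by_cases hF : FR k a b i
  swap
  · exact C0 k a b i (by omega) hb hi hF hZ
  -- the first occurrences
  obtain ⟨hf1, hf2, ha1, hb1, hab⟩ := hF
  have hZR : ∀ a'', ¬ ZR k a'' b i := by
    rintro a'' ⟨h3, -, -, h4⟩
    have := deg_one (b := b) hi (fun j hj hji => by
      rcases Nat.lt_or_ge j i with h | h
      · exact (hf1 j h).2
      · exact (h3 j hj (by omega)).2)
    omega
  have hpi : p = i := by
    have h7 := hpmin i (mem_sp'.2 ⟨hi, by omega⟩)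
    by_contra hne
    exact (mem_sp'.1 hp).2 (hf1 p (by omega)).1
  subst hpi
  by_cases hF' : FR k a' b p
  swap
  · exact R a' hL (by omega) hF' (hZR _)
  obtain ⟨hf1', hf2', ha1', _, _⟩ := hF'
  have hp' : p ∈ sp k a' := mem_sp'.2 ⟨hpk, by omega⟩
  have hpmin' : ∀ j ∈ sp k a', p ≤ j := by
    intro j hj
    by_contra hlt
    exact (mem_sp'.1 hj).2 (hf1' j (by omega)).1
  have hQ1 : ∀ q, b q ≠ 0 → q ≠ p → p < q := by
    intro q hq hqp
    by_contra hlt
    exact hq (hf1 q (by omega)).2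
  by_cases hmax : (sp k a).max = (sp k a').max
  swap
  · -- different last blocks
    have hA := hAP hmax (by omega)
    have toc2 : ∀ c, deg k c = d → (sp k c).card ≤ 2 → (sp k c).min = (p : WithTop ℕ) →
        L1 ρ k a c := by
      intro c e1 e2 e3
      refine (FC.ofFIC ρ).trans (toc r (d - 1) 0 1 hpr le_rfl (by omega) le_rfl (by omega))
        (hA k _ c ?_ e1 ?_ e2 ?_)
      · rw [deg_w3 hpk hrk hrk]
        omega
      · have h7 : sp k (w3 p r r (d - 1) 0 1) ⊆ {p, r} := by
          intro j hj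
          have h := sp_w3_sub hj
          rw [Finset.mem_insert, Finset.mem_insert, Finset.mem_singleton] at h
          rw [Finset.mem_insert, Finset.mem_singleton]
          omega
        exact (Finset.card_le_card h7).trans Finset.card_le_two
      · rw [w3_min hpk hpr hpr (by omega), e3]
    by_cases hQ : ∀ j ≤ k, j ≠ p → b j = 0
    · have hbi := deg_one hpk hQ
      have hs := sp_sg (d := d) hpk (by omega)
      refine R (sg p d) (toc2 _ (deg_sg hpk) ?_ ?_) (by rw [deg_sg hpk]; exact hd) ?_ (hZR _)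
      · rw [hs, Finset.card_singleton]
        omega
      · rw [hs, Finset.min_singleton]
        rfl
      · rintro ⟨-, -, -, -, h7⟩
        unfold sg at h7
        rw [if_pos rfl] at h7
        omega
    · push Not at hQ
      obtain ⟨q, hqk, hqp, hbq⟩ := hQ
      have hpq := hQ1 q hbq hqp
      refine R (w3 p p q (d - 1) 0 1) (toc2 _ ?_ ?_ ?_) ?_ ?_ (hZR _)
      · rw [deg_w3 hpk hpk hqk]
        omega
      · have h7 : sp k (w3 p p q (d - 1) 0 1) ⊆ {p, q} := by
          intro j hj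
          have h := sp_w3_sub hj
          rw [Finset.mem_insert, Finset.mem_insert, Finset.mem_singleton] at h
          rw [Finset.mem_insert, Finset.mem_singleton]
          omega
        exact (Finset.card_le_card h7).trans Finset.card_le_two
      · exact w3_min hpk le_rfl hpq.le (by omega)
      · rw [deg_w3 hpk hpk hqk]
        omega
      · rintro ⟨-, h7, -⟩
        rcases h7 q hqk hqp with h8 | h8
        · unfold w3 at h8
          rw [if_pos (rfl : q = q)] at h8
          omega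
        · exact hbq h8
  -- the same last block
  have hr' : r ∈ sp k a' := by
    rw [hmaxa] at hmax
    exact Finset.mem_of_max hmax.symm
  have hrmax' : ∀ j ∈ sp k a', j ≤ r := by
    intro j hj
    rw [hmaxa] at hmax
    exact le_of_max hmax.symm hj
  have hplt : p < r := by
    rcases hpr.lt_or_eq with h | h
    · exact h
    · exfalso
      apply hS
      have : ∀ {P : Finset ℕ}, p ∈ P → (∀ j ∈ P, p ≤ j) → (∀ j ∈ P, j ≤ r) → P = {p} := by
        intro P h5 h6 h7
        ext j
        rw [Finset.mem_singleton]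
        constructor
        · intro hj
          have h8 := h6 j hj
          have h9 := h7 j hj
          omega
        · rintro rfl
          exact h5
      rw [this hp hpmin hrmax, this hp' hpmin' hrmax']
  have hII : ¬ II (FC.ofFIC β) := by
    intro hII
    apply hLβ
    have h5 := (mem_sp'.1 hp).2
    have h6 := (mem_sp'.1 hr).2
    have h7 := (mem_sp'.1 hp').2
    have h8 := (mem_sp'.1 hr').2
    obtain ⟨c, e1, e2, e3⟩ := red1 hII hplt hrk _ a le_rfl (by omega) (by omega) hpmin hrmax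
    obtain ⟨c', e1', e2', e3'⟩ := red1 hII hplt hrk _ a' le_rfl (by omega) (by omega) hpmin'
      hrmax'
    have e4 := oaa (FC.ofFIC β) k c c' (Or.inl ho1) (by omega) (by rw [e3, e3'])
    exact (FC.ofFIC β).trans e1 ((FC.ofFIC β).trans e4 ((FC.ofFIC β).symm e1'))
  have g1 : Bt ρ 2 (v3 1 2 0) (v3 1 0 1) 0 := bt_mono hle (hcl.resolve_left hII)
  by_cases hQ : ∀ j ≤ k, j ≠ p → b j = 0
  · have hbi := deg_one hpk hQ
    refine R (w3 p p r (d - 1) 0 1) (toc p (d - 1) 0 1 le_rfl hpr (by omega) le_rfl (by omega))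
      (degw _ _ _ _ hpk (by omega)) ?_ (hZR _)
    rintro ⟨-, -, -, -, h7⟩
    unfold w3 at h7
    rw [if_pos rfl] at h7
    omega
  push Not at hQ
  obtain ⟨q, hqk, hqp, hbq⟩ := hQ
  have hpq := hQ1 q hbq hqp
  rcases Nat.lt_or_ge r q with hrq | hqr
  · refine C2 k a _ b p (toc p 1 0 (d - 1) le_rfl hpr le_rfl (by omega) (by omega)) ?_
    have hc1 : w3 p p r 1 0 (d - 1) p = 1 := by
      unfold w3
      rw [if_pos rfl, if_pos rfl, if_neg (by omega)]
    have hc2 : w3 p p r 1 0 (d - 1) r = d - 1 := by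
      unfold w3
      rw [if_neg (by omega), if_neg (by omega), if_pos rfl]
      omega
    have h7 := liftC fcc hc (c := w3 p p r 1 0 (d - 1)) (b := b)
      (bmap_tb3 hplt.le hrq.le hqk) (by rw [deg_v3]; omega) (by rw [deg_v3]) (Nat.zero_le 2)
      (le_of_eq rfl) (le_of_eq rfl) (fun j hj => absurd hj (Nat.not_lt_zero j)) g1
      (fun t _ => by
        rw [psh_tb3]
        exact w3_le hplt hrq (by rw [hc1]) (by rw [hc2]; omega) (Nat.zero_le _) t)
      (fun t _ => by
        rw [psh_tb3]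
        exact w3_le hplt hrq hb1 (Nat.zero_le _) (by omega) t)
    exact h7
  · refine R (w3 p q r (d - 2) 1 1) (toc q (d - 2) 1 1 hpq.le hqr (by omega) le_rfl (by omega))
      (degw _ _ _ _ hqk (by omega)) ?_ (hZR _)
    rintro ⟨-, h7, -⟩
    rcases h7 q hqk hqp with h8 | h8
    · unfold w3 at h8
      rw [if_pos (rfl : q = q)] at h8
      omega
    · exact hbq h8

end Pool.Agent.MVO.H98
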