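import Pool.Agent.MVO.StmtsE

set_option autoImplicit false

/-! Row RG2 of the squad MVO: rigidity of the two letter words in class Cc. -/

namespace Pool.Agent.MVO.H98

open Pool.Agent.Helper14_MV Pool.Agent.Helper2_MV Pool.Agent.MVO

namespace Rg2Row

/-- `0` and `1` are adjacent somewhere in `l` -/
def Adj (l : List ℕ) : Prop :=
  ∃ l1 l2 : List ℕ, l = l1 ++ 0 :: 1 :: l2 ∨ l = l1 ++ 1 :: 0 :: l2

theorem Adj.left {l : List ℕ} (h : Adj l) (m : List ℕ) : Adj (m ++ l) := by
  obtain ⟨l1, l2, rfl | rfl⟩ := h
  · exact ⟨m ++ l1, l2, Or.inl (by simp)⟩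
  · exact ⟨m ++ l1, l2, Or.inr (by simp)⟩

theorem Adj.right {l : List ℕ} (h : Adj l) (m : List ℕ) : Adj (l ++ m) := by
  obtain ⟨l1, l2, rfl | rfl⟩ := h
  · exact ⟨l1, l2 ++ m, Or.inl (by simp)⟩
  · exact ⟨l1, l2 ++ m, Or.inr (by simp)⟩

theorem Adj.cob {l : List ℕ} (h : Adj l) (w : List ℕ) : Cob w l 0 1 ∨ Cob w l 1 0 := by
  obtain ⟨l1, l2, rfl | rfl⟩ := h
  · exact Or.inl ⟨l1, [], l2, rfl, fun z hz => absurd hz (List.not_mem_nil)⟩
  · exact Or.inr ⟨l1, [], l2, rfl, fun z hz => absurd hz (List.not_mem_nil)⟩

theorem adj_bl {p q : ℕ} (hp : 1 ≤ p) (hq : 1 ≤ q) (e : Bool) : Adj (bl p q e) := by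
  obtain ⟨p, rfl⟩ : ∃ p', p = p' + 1 := ⟨p - 1, by omega⟩
  obtain ⟨q, rfl⟩ : ∃ q', q = q' + 1 := ⟨q - 1, by omega⟩
  unfold bl
  by_cases h : e = true
  · rw [if_pos h]
    refine ⟨List.replicate q 1, List.replicate p 0, Or.inr ?_⟩
    rw [List.replicate_succ' , List.replicate_succ]
    simp
  · rw [if_neg h]
    refine ⟨List.replicate p 0, List.replicate q 1, Or.inl ?_⟩
    rw [List.replicate_succ' , List.replicate_succ]
    simp

section
variable {β : FIC} (sgc : SgcStmt) (hβ : MVD.Cc β)
include sgc hβ

theorem single {P Q : List ℕ} (h : Adj P ∨ Adj Q) :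
    RR β (P ++ 0 :: 1 :: Q) (P ++ 1 :: 0 :: Q) := by
  obtain ⟨-, h2, h3⟩ := sgc β hβ P Q 0 1
  rcases h with h | h
  · exact h3 (h.cob _)
  · exact h2 (h.cob _)

theorem move1 : ∀ (q : ℕ) (P Q : List ℕ), (Adj P ∨ Adj Q) →
    RR β (P ++ 0 :: (List.replicate q 1 ++ Q)) (P ++ (List.replicate q 1 ++ 0 :: Q)) := by
  intro q
  induction q with
  | zero =>
    intro P Q _
    exact RR.refl _
  | succ q ih =>
    intro P Q h
    have h1 : RR β (P ++ 0 :: 1 :: (List.replicate q 1 ++ Q))
        (P ++ 1 :: 0 :: (List.replicate q 1 ++ Q)) :=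
      single sgc hβ (h.imp id (fun h => h.left _))
    have h2 := ih (P ++ [1]) Q (h.imp (fun h => h.right _) id)
    rw [List.append_assoc, List.append_assoc] at h2
    rw [List.replicate_succ]
    exact β.trans h1 h2

theorem move : ∀ (p q : ℕ) (P Q : List ℕ), (Adj P ∨ Adj Q) →
    RR β (P ++ (List.replicate p 0 ++ List.replicate q 1) ++ Q)
      (P ++ (List.replicate q 1 ++ List.replicate p 0) ++ Q) := by
  intro p
  induction p with
  | zero =>
    intro q P Q _
    simp only [List.replicate_zero, List.nil_append, List.append_nil]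
    exact RR.refl _
  | succ p ih =>
    intro q P Q h
    have h1 := move1 sgc hβ q (P ++ List.replicate p 0) Q (h.imp (fun h => h.right _) id)
    have h2 := ih q P (0 :: Q) (h.imp id (fun h => h.left [0]))
    rw [List.replicate_succ']
    simp only [List.append_assoc, List.cons_append, List.nil_append] at h1 h2 ⊢
    exact β.trans h1 h2

/-- the exchange in one block -/
theorem ex_block {k : ℕ} {a b : ℕ → ℕ} {i l : ℕ} (hi : i ≤ k) (hl : l ≤ k) (hil : i ≠ l)
    (ha : 1 ≤ a l) (hb : 1 ≤ b l) (e : ℕ → Bool) : Ex β k a b e i := by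
  have hadj : Adj (pre (fun j => bl (a j) (b j) (e j)) i) ∨
      Adj (suf (fun j => bl (a j) (b j) (e j)) i (k - i)) := by
    rcases Nat.lt_or_gt_of_ne hil with h | h
    · right
      obtain ⟨R, R', h1⟩ := suf_split (B := fun j => bl (a j) (b j) (e j)) (i := i) (j := l)
        (r := k - i) h (by omega)
      rw [h1]
      exact ((adj_bl ha hb (e l)).left R).right R'
    · left
      obtain ⟨R, h1⟩ := pre_split (B := fun j => bl (a j) (b j) (e j)) (i := i) (j := l) h
      rw [h1]
      exact ((adj_bl ha hb (e l)).left _).right R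
  have h1 : w2 k a b (flp e i) =
      asm k (Function.update (fun j => bl (a j) (b j) (e j)) i (bl (a i) (b i) (!(e i)))) := by
    unfold w2
    apply asm_congr
    intro j _
    by_cases hj : j = i
    · subst hj
      rw [Function.update_self]
      unfold flp
      rw [if_pos rfl]
    · rw [Function.update_of_ne hj]
      unfold flp
      rw [if_neg hj]
  unfold Ex
  rw [h1, asm_update hi]
  unfold w2
  rw [asm_split hi]
  have h2 := move sgc hβ (a i) (b i) _ _ hadj
  unfold bl at h2 ⊢
  cases h : e i with
  | false =>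
    simpa [h] using h2
  | true =>
    simpa [h] using h2.symm

end

theorem chain {β : FIC} {k : ℕ} {a b : ℕ → ℕ} (h : ∀ e, ∀ j ≤ k, Ex β k a b e j)
    (e e' : ℕ → Bool) : RR β (w2 k a b e) (w2 k a b e') := by
  have step : ∀ s ≤ k + 1, RR β (w2 k a b e) (w2 k a b (fun j => if j < s then e' j else e j)) := by
    intro s
    induction s with
    | zero =>
      intro _
      have e1 : (fun j => if j < 0 then e' j else e j) = e := by
        funext j
        rw [if_neg (by omega)]
      rw [e1]
      exact RR.refl _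
    | succ s ih =>
      intro hs
      have h1 := ih (by omega)
      by_cases he : e' s = e s
      · have e1 : (fun j => if j < s + 1 then e' j else e j) =
            fun j => if j < s then e' j else e j := by
          funext j
          by_cases hj : j = s
          · subst hj
            rw [if_pos (by omega), if_neg (by omega), he]
          · by_cases hj2 : j < s
            · rw [if_pos hj2, if_pos (by omega)]
            · rw [if_neg hj2, if_neg (by omega)]
        rw [e1]
        exact h1
      · have e1 : (fun j => if j < s + 1 then e' j else e j) =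
            flp (fun j => if j < s then e' j else e j) s := by
          funext j
          unfold flp
          by_cases hj : j = s
          · subst hj
            rw [if_pos (by omega), if_pos rfl]
            beta_reduce
            rw [if_neg (by omega)]
            cases h2 : e' j <;> cases h3 : e j <;> simp_all
          · rw [if_neg hj]
            beta_reduce
            by_cases hj2 : j < s
            · rw [if_pos hj2, if_pos (by omega)]
            · rw [if_neg hj2, if_neg (by omega)]
        rw [e1]
        exact β.trans h1 (h _ s (by omega))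
  have h4 := step (k + 1) (le_refl _)
  have e3 : w2 k a b (fun j => if j < k + 1 then e' j else e j) = w2 k a b e' := by
    unfold w2
    apply asm_congr
    intro j hj
    beta_reduce
    rw [if_pos (by omega)]
  rwa [e3] at h4

theorem bl_zero_left (q : ℕ) (e : Bool) : bl 0 q e = List.replicate q 1 := by
  unfold bl
  cases e <;> simp

theorem bl_zero_right (p : ℕ) (e : Bool) : bl p 0 e = List.replicate p 0 := by
  unfold bl
  cases e <;> simp

end Rg2Row

open Rg2Row

/-- **RG2** -/
theorem rg2 (sgc : SgcStmt) (_nfs : NfsStmt) : Rg2Stmt := by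
  intro β hβ k a b _ _
  by_cases hr : ∃ r ≤ k, ∀ j ≤ k, j ≠ r → a j = 0 ∨ b j = 0
  · obtain ⟨r, hrk, hr⟩ := hr
    refine ⟨r, fun e e' hee => ?_⟩
    have h1 : w2 k a b e = w2 k a b e' := by
      unfold w2
      apply asm_congr
      intro j hj
      by_cases hjr : j = r
      · rw [hjr, hee]
      · rcases hr j hj hjr with h0 | h0
        · rw [h0, bl_zero_left, bl_zero_left]
        · rw [h0, bl_zero_right, bl_zero_right]
    rw [h1]
    exact RR.refl _
  · refine ⟨0, fun e e' _ => chain ?_ e e'⟩
    intro e j hj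
    by_contra hcon
    apply hr
    refine ⟨j, hj, fun l hl hlj => ?_⟩
    by_contra h0
    push Not at h0
    exact hcon (ex_block sgc hβ hj hl (Ne.symm hlj) (by omega) (by omega) e)

end Pool.Agent.MVO.H98
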